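import Pool.Agent.H648.Q.Defs2

/-!
Task Q648-UNT2: a primitive element of sign `-1` and character `1`, totally positive in the real
case.
-/

set_option autoImplicit false

namespace Pool.Agent.H100.Q648

open Pool.Agent.H648.Q2
open Pool.Agent.H376R2.MR (lam)
open Pool.Agent.W78.GA (Qd nm prim)

theorem unt2_of {b m : ℤ} (hns : ¬ IsSquare (b ^ 2 - 4 * m)) (h1 : S_CHI) (h2 : S_LEG2) :
    S_UNT2 b m := by
  intro A hA hDA
  have hD0 : b ^ 2 - 4 * m ≠ 0 := by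
    intro h0
    exact hns ⟨0, by rw [h0]; norm_num⟩
  obtain ⟨hchi, -, -⟩ := h1 (b ^ 2 - 4 * m) A hD0 hA hDA
  obtain ⟨x, y, r, p, hp, hr, hxA, ⟨y1, hy⟩, hxy, he, hcx, hx0⟩ :=
    h2 (b ^ 2 - 4 * m) A hns hA hDA
  obtain ⟨u, hu⟩ : ∃ u : Qd (b * A) (m * A ^ 2), u = ⟨x - b * y, 2 * y1⟩ := ⟨_, rfl⟩
  have hre : u.re = x - b * y := by rw [hu]
  have him : u.im = 2 * y1 := by rw [hu]
  have hnu : nm u = r.natAbs ^ 2 * p := by
    unfold nm
    rw [hre, him]
    have e : (x - b * y) ^ 2 + b * (A : ℤ) * (x - b * y) * (2 * y1) +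
        m * (A : ℤ) ^ 2 * (2 * y1) ^ 2 = p * r ^ 2 := by
      rw [← he, hy]
      ring
    rw [e, Int.natAbs_mul, Int.natAbs_pow, Int.natAbs_natCast, mul_comm]
  have hr' : r.natAbs ≠ 0 := Int.natAbs_ne_zero.2 hr
  -- coprimality
  have c1 : IsCoprime x (A : ℤ) := Int.isCoprime_iff_gcd_eq_one.2 hxA
  have c2 : IsCoprime x y := Int.isCoprime_iff_gcd_eq_one.2 hxy
  have c3 : IsCoprime (x - b * y) (A : ℤ) := by
    have e : x - b * y = x + (A : ℤ) * (-(b * y1)) := by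
      rw [hy]
      ring
    rw [e]
    exact c1.add_mul_left_left _
  have c4 : IsCoprime (x - b * y) y := by
    have e : x - b * y = x + y * (-b) := by ring
    rw [e]
    exact c2.add_mul_left_left _
  have h2A : (2 : ℤ) ∣ (A : ℤ) := (Dvd.intro (2 * (b ^ 2 - 4 * m)) (by ring)).trans hDA
  have c5 : IsCoprime (x - b * y) 2 := c3.of_isCoprime_of_dvd_right h2A
  have c6 : IsCoprime (x - b * y) y1 :=
    c4.of_isCoprime_of_dvd_right (by rw [hy]; exact Dvd.intro_left _ rfl)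
  refine ⟨u, ?_, ?_, ?_, ?_⟩
  · unfold prim
    rw [hre, him]
    exact Int.isCoprime_iff_gcd_eq_one.1 (c5.mul_right c6)
  · rw [hre]
    rw [hchi.per (x - b * y) x ⟨-(b * y1), by rw [hy]; ring⟩]
    exact hcx
  · rw [hnu, Pool.Agent.W78.GA.lam_sq_mul hr' hp.ne_zero, Pool.Agent.W78.GA.lam_prime hp]
  · intro hbm
    have hDpos : 0 < b ^ 2 - 4 * m := by linarith
    have hxpos : 0 < x := hx0 hDpos
    have hAr : (0 : ℝ) < (A : ℝ) := by exact_mod_cast hA
    have hDr : (0 : ℝ) < (b : ℝ) ^ 2 - 4 * m := by exact_mod_cast hDpos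
    have hsq : Real.sqrt ((((b * A : ℤ) : ℝ)) ^ 2 - 4 * ((m * A ^ 2 : ℤ) : ℝ)) =
        A * Real.sqrt ((b : ℝ) ^ 2 - 4 * m) := by
      have e : (((b * A : ℤ) : ℝ)) ^ 2 - 4 * ((m * A ^ 2 : ℤ) : ℝ) =
          (A : ℝ) ^ 2 * ((b : ℝ) ^ 2 - 4 * m) := by
        push_cast
        ring
      rw [e, Real.sqrt_mul (by positivity), Real.sqrt_sq hAr.le]
    have hyr : (y : ℝ) = A * y1 := by
      rw [hy]
      push_cast
      ring
    have hs1 : Pool.Agent.W78.GR.s1 u = x + y * Real.sqrt ((b : ℝ) ^ 2 - 4 * m) := by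
      unfold Pool.Agent.W78.GR.s1
      rw [hsq, hre, him, hyr]
      push_cast
      rw [hyr]
      ring
    have hs2 : Pool.Agent.W78.GR.s2 u = x - y * Real.sqrt ((b : ℝ) ^ 2 - 4 * m) := by
      unfold Pool.Agent.W78.GR.s2
      rw [hsq, hre, him, hyr]
      push_cast
      rw [hyr]
      ring
    have hS : Real.sqrt ((b : ℝ) ^ 2 - 4 * m) ^ 2 = (b : ℝ) ^ 2 - 4 * m := Real.sq_sqrt hDr.le
    obtain ⟨S, hSd⟩ : ∃ S, S = Real.sqrt ((b : ℝ) ^ 2 - 4 * m) := ⟨_, rfl⟩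
    rw [← hSd] at hs1 hs2 hS
    have hxr : (0 : ℝ) < x := by exact_mod_cast hxpos
    have hprod : 0 < ((x : ℝ) + y * S) * (x - y * S) := by
      have e : ((x : ℝ) + y * S) * (x - y * S) = p * (r : ℝ) ^ 2 := by
        have e1 : ((x : ℝ) + y * S) * (x - y * S) = x ^ 2 - S ^ 2 * y ^ 2 := by ring
        rw [e1, hS]
        exact_mod_cast he
      rw [e]
      have hpr : (0 : ℝ) < p := by exact_mod_cast hp.pos
      have hrr : (r : ℝ) ≠ 0 := by exact_mod_cast hr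
      positivity
    unfold Pool.Agent.W78.GR.tp
    rw [hs1, hs2]
    rcases pos_and_pos_or_neg_and_neg_of_mul_pos hprod with h | h
    · exact h
    · exfalso
      linarith [h.1, h.2]

end Pool.Agent.H100.Q648
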